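import Mathlib
import Pool.Agent.Y179.SF.Grid

set_option autoImplicit false

/-!
For every `q > 2` the square-root snowflake of `L_q([0,1])` has no biLipschitz embedding into
`L_q([0,1])`.

The obstruction is finite, quantitative, and only uses the grids of `ℓ_r^n`:  if
`m ≥ 4 n^(1 / (2 + θ (q - 2))) + 1`, then every embedding of the `θ`-snowflake of the grid
`{0, …, m - 1}^n` of `ℓ_r^n` into a space `L_q(μ)` has distortion at least
`c(q) n^(θ (1 / (2 + θ (q - 2)) - 1 / r))`.  Hence, if `θ (q - 2) < r - 2`, no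
space that contains the grids of `ℓ_r^n` with uniformly bounded distortion has a
`θ`-snowflake embedding into a space `L_q(μ)`; in particular `ℓ_r` has none.
-/

namespace Pool.Agent.Results.MP_d89202_an.GridSnowflakes

open MeasureTheory

/-- The real Banach space `L_q([0,1])` with Lebesgue measure. -/
noncomputable abbrev Lq (q : ℝ) := Lp ℝ (ENNReal.ofReal q) (volume.restrict (Set.Icc (0 : ℝ) 1))

/-- The real Banach space `ℓ_r` of the sequences `ℕ → ℝ`. -/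
abbrev ell (r : ℝ) := lp (fun _ : ℕ => ℝ) (ENNReal.ofReal r)

/-- The distance given by the norm. -/
def nd (E : Type) [Sub E] [Norm E] (a b : E) : ℝ := ‖a - b‖

/-- `f` is, for some scaling `s > 0`, a biLipschitz embedding of distortion at most `D` of
`(X, d(x, y)^θ)` into the normed space `Y`. -/
def HasDistortion {X Y : Type} [Sub Y] [Norm Y] (d : X → X → ℝ) (θ D : ℝ) (f : X → Y) : Prop :=
  ∃ s : ℝ, 0 < s ∧ ∀ a b : X,
    s * d a b ^ θ ≤ ‖f a - f b‖ ∧ ‖f a - f b‖ ≤ D * (s * d a b ^ θ)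

/-- `(X, d(x, y)^θ)` has a biLipschitz embedding into the normed space `Y`. -/
def SnowflakeEmbeds {X : Type} (d : X → X → ℝ) (θ : ℝ) (Y : Type) [Sub Y] [Norm Y] : Prop :=
  ∃ D : ℝ, 1 ≤ D ∧ ∃ f : X → Y, HasDistortion d θ D f

/-- The distance of `ℓ_r^n` between two points of the grid `{0, …, m - 1}^n`. -/
noncomputable def gridDist (r : ℝ) (n m : ℕ) (x y : Fin n → Fin m) : ℝ :=
  (∑ i, |((x i : ℕ) : ℝ) - ((y i : ℕ) : ℝ)| ^ r) ^ (1 / r)

/-- `(X, d)` contains, up to scaling and with a distortion `C` that does not depend on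
`n, m`, all the grids `{0, …, m - 1}^n` of `ℓ_r^n`. -/
def ContainsGrids {X : Type} (d : X → X → ℝ) (r : ℝ) : Prop :=
  ∃ C : ℝ, ∀ n m : ℕ, ∃ (T : (Fin n → Fin m) → X) (l : ℝ), 0 < l ∧ ∀ x y,
    l * gridDist r n m x y ≤ d (T x) (T y) ∧ d (T x) (T y) ≤ C * (l * gridDist r n m x y)

theorem ell_contains (r : ℝ) (hr : 2 < r) : ContainsGrids (nd (ell r)) r := by
  have hr0 : 0 < r := by linarith
  have htr : (ENNReal.ofReal r).toReal = r := ENNReal.toReal_ofReal hr0.le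
  refine ⟨1, fun n m => ?_⟩
  let g : (Fin n → Fin m) → ℕ → ℝ := fun x i => if h : i < n then ((x ⟨i, h⟩ : ℕ) : ℝ) else 0
  let T : (Fin n → Fin m) → ell r := fun x =>
    ∑ i ∈ Finset.range n, lp.single (E := fun _ : ℕ => ℝ) (ENNReal.ofReal r) i (g x i)
  have key : ∀ x y, nd (ell r) (T x) (T y) = gridDist r n m x y := by
    intro x y
    have h1 : T x - T y =
        ∑ i ∈ Finset.range n, lp.single (E := fun _ : ℕ => ℝ) (ENNReal.ofReal r) i
          ((fun j => g x j - g y j) i) := by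
      simp only [T]
      rw [← Finset.sum_sub_distrib]
      exact Finset.sum_congr rfl fun i _ => (lp.single_sub _ _ _ _).symm
    have h2 := lp.norm_sum_single (E := fun _ : ℕ => ℝ) (p := ENNReal.ofReal r)
      (by rw [htr]; exact hr0) (fun j => g x j - g y j) (Finset.range n)
    rw [← h1, htr] at h2
    have h3 : ∑ i ∈ Finset.range n, ‖(fun j => g x j - g y j) i‖ ^ r =
        ∑ i : Fin n, |((x i : ℕ) : ℝ) - ((y i : ℕ) : ℝ)| ^ r := by
      rw [Finset.sum_range]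
      refine Finset.sum_congr rfl fun i _ => ?_
      simp only [g, Fin.is_lt, dite_true, Real.norm_eq_abs, Fin.eta]
    rw [h3] at h2
    unfold nd gridDist
    rw [← h2, ← Real.rpow_mul (lp.norm_nonneg' _), mul_one_div_cancel hr0.ne', Real.rpow_one]
  exact ⟨T, 1, one_pos, fun x y => by rw [key]; constructor <;> simp⟩

theorem no_space (q r θ : ℝ) (hq : 2 < q) (hr : 2 < r) (h0 : 0 < θ) (h1 : θ ≤ 1)
    (hc : θ * (q - 2) < r - 2) (X : Type) (d : X → X → ℝ) (hX : ContainsGrids d r)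
    (α : Type) [MeasurableSpace α] (μ : Measure α) :
    ¬ SnowflakeEmbeds d θ (Lp ℝ (ENNReal.ofReal q) μ) := by
  rintro ⟨D, hD, f, s, hs, hf⟩
  obtain ⟨C, hC⟩ := hX
  exact Pool.Agent.Y179.SF.space hq hr h0 h1 hc d C hC μ f s D hs (by linarith) hf

/-- **Main theorem.** -/
theorem result (q : ℝ) (hq : 2 < q) :
    (¬ SnowflakeEmbeds (nd (Lq q)) (1 / 2) (Lq q)) ∧
    (∀ θ : ℝ, 0 < θ → θ < 1 → ∀ (α : Type) [MeasurableSpace α] (μ : Measure α),
      ¬ SnowflakeEmbeds (nd (Lq q)) θ (Lp ℝ (ENNReal.ofReal q) μ) ∧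
      ¬ SnowflakeEmbeds (nd (ell q)) θ (Lp ℝ (ENNReal.ofReal q) μ)) ∧
    (∃ c : ℝ, 0 < c ∧ ∀ r θ : ℝ, 0 < r → 0 < θ → θ ≤ 1 → ∀ n m : ℕ, 0 < n →
      4 * (n : ℝ) ^ (1 / (2 + θ * (q - 2))) + 1 ≤ m →
      ∀ (α : Type) [MeasurableSpace α] (μ : Measure α)
        (f : (Fin n → Fin m) → Lp ℝ (ENNReal.ofReal q) μ) (D : ℝ), 1 ≤ D →
        HasDistortion (gridDist r n m) θ D f →
          c * (n : ℝ) ^ (θ * (1 / (2 + θ * (q - 2)) - 1 / r)) ≤ D) ∧
    (∀ r θ : ℝ, 2 < r → 0 < θ → θ ≤ 1 → θ * (q - 2) < r - 2 →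
      (∀ (X : Type) (d : X → X → ℝ), ContainsGrids d r →
        ∀ (α : Type) [MeasurableSpace α] (μ : Measure α),
          ¬ SnowflakeEmbeds d θ (Lp ℝ (ENNReal.ofReal q) μ)) ∧
      (∀ (α : Type) [MeasurableSpace α] (μ : Measure α),
        ¬ SnowflakeEmbeds (nd (ell r)) θ (Lp ℝ (ENNReal.ofReal q) μ))) := by
  have key : ∀ θ : ℝ, 0 < θ → θ < 1 → ∀ (α : Type) [MeasurableSpace α] (μ : Measure α),
      ¬ SnowflakeEmbeds (nd (Lq q)) θ (Lp ℝ (ENNReal.ofReal q) μ) := by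
    intro θ h0 h1 α _ μ
    rintro ⟨D, hD, f, s, hs, hf⟩
    exact Pool.Agent.Helper841.Snow.no_snowflake μ hq h0 h1 f s D hs hD hf
  refine ⟨key (1 / 2) (by norm_num) (by norm_num) ℝ _, fun θ h0 h1 α _ μ => ⟨key θ h0 h1 α μ, ?_⟩,
    ⟨(Pool.Agent.Y179.SF.cst q)⁻¹, inv_pos.2 (Pool.Agent.Y179.SF.cst_pos q), ?_⟩,
    fun r θ hr h0 h1 hc => ⟨fun X d hX α _ μ =>
      no_space q r θ hq hr h0 h1 hc X d hX α μ, fun α _ μ =>
      no_space q r θ hq hr h0 h1 hc _ _ (ell_contains r hr) α μ⟩⟩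
  · exact no_space q q θ hq hq h0 h1.le (by nlinarith) _ _ (ell_contains q hq) α μ
  · intro r θ hr h0 h1 n m hn hm α _ μ f D hD
    rintro ⟨s, hs, hf⟩
    have h := Pool.Agent.Y179.SF.quant hq hr h0 h1 (by linarith : 0 < D) n m hn hm μ f s hs hf
    rw [inv_mul_le_iff₀ (Pool.Agent.Y179.SF.cst_pos q)]
    exact h

end Pool.Agent.Results.MP_d89202_an.GridSnowflakes
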